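import Mathlib
import Pool.Agent.H8.KA.Lib.R_seed8.H98R2.Ev.Defs

set_option autoImplicit false

/-!
MP_257582_lc: every non-trivial monotone graph property has decision tree complexity at least
`(9/25 - o(1)) n^2`.  Definitions.
-/

namespace Pool.Agent.H119R2.Kp

open Finset
open Pool.Agent.H98R2.Ev (EV toG NE)

/-- `Dec q D`: the function `D` of a set of edges is computed by a decision tree of depth `q` -/
inductive Dec {E : Type} [DecidableEq E] : ℕ → (Finset E → Prop) → Prop
  | const (q : ℕ) (D : Finset E → Prop) (h : (∀ S, D S) ∨ (∀ S, ¬ D S)) : Dec q D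
  | node (q : ℕ) (D : Finset E → Prop) (e : E) (h0 : Dec q (fun S => D (S.erase e)))
      (h1 : Dec q (fun S => D (insert e S))) : Dec (q + 1) D

/-- a monotone isomorphism invariant graph property on `n` vertices with a decision tree of
depth `q` -/
structure GP (n q : ℕ) (P : SimpleGraph (Fin n) → Prop) : Prop where
  mono : ∀ G H : SimpleGraph (Fin n), G ≤ H → P G → P H
  iso : ∀ (σ : Fin n ≃ Fin n) (G : SimpleGraph (Fin n)), P G → P (G.map σ.toEmbedding)
  dec : Dec q (fun S : Finset (EV (Fin n)) => P (toG S))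

/-- the star case: graphs with an isolated vertex fail `P`, graphs with a universal vertex have
`P` -/
structure Star (n : ℕ) (P : SimpleGraph (Fin n) → Prop) : Prop where
  isol : ∀ G : SimpleGraph (Fin n), (∃ v, ∀ w, ¬ G.Adj v w) → ¬ P G
  univ : ∀ G : SimpleGraph (Fin n), (∃ v, ∀ w, w ≠ v → G.Adj v w) → P G

/-- the property transported to another vertex set -/
def PV {n : ℕ} (P : SimpleGraph (Fin n) → Prop) (V : Type) (G : SimpleGraph V) : Prop :=
  ∃ e : V ≃ Fin n, P (G.map e.toEmbedding)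

/-- blow-up of the pattern `Γ` with parts of sizes `s i`; `Γ i i` says that part `i` is a clique -/
def BU {k : ℕ} (s : Fin k → ℕ) (Γ : Fin k → Fin k → Bool) : SimpleGraph (Σ i, Fin (s i)) where
  Adj u v := u ≠ v ∧ (Γ u.1 v.1 = true ∨ Γ v.1 u.1 = true)
  symm := ⟨fun _ _ h => ⟨h.1.symm, h.2.symm⟩⟩
  loopless := ⟨fun _ h => h.1 rfl⟩

open Classical in
/-- the value (0 or 1) of `P` on a blow-up -/
noncomputable def hv {n : ℕ} (P : SimpleGraph (Fin n) → Prop) {k : ℕ} (s : Fin k → ℕ)
    (Γ : Fin k → Fin k → Bool) : ℤ :=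
  if PV P _ (BU s Γ) then 1 else 0

/-- one special part of size `x`, then `k` parts of size `p` -/
def sz (k x p : ℕ) : Fin (k + 1) → ℕ := Fin.cons x (fun _ => p)

/-- the pattern whose edges are given by a list (inside edges `(i,i)` included) -/
def pat {k : ℕ} (l : List (Fin k × Fin k)) : Fin k → Fin k → Bool :=
  fun a b => decide ((a, b) ∈ l)

/-- the dual property -/
def dual {n : ℕ} (P : SimpleGraph (Fin n) → Prop) : SimpleGraph (Fin n) → Prop := fun G => ¬ P Gᶜ

/-- lists of free classes for the swap relations: a class is a list of pairs of parts -/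
def evenCls : Fin 4 → List (Fin 4 × Fin 4) :=
  ![[(0, 1)], [(0, 2), (0, 3)], [(1, 2), (1, 3)], [(2, 2), (3, 3)]]

def evenBase : List (Fin 4 × Fin 4) := [(0, 0), (1, 1)]

def oddCls : Fin 6 → List (Fin 5 × Fin 5) :=
  ![[(0, 1)], [(0, 3), (0, 4)], [(1, 2)], [(1, 3), (1, 4)], [(2, 3), (2, 4)], [(3, 3), (4, 4)]]

def oddBase : List (Fin 5 × Fin 5) := [(0, 0), (1, 1), (2, 2), (0, 2)]

/-- base pattern `Γ` plus the classes in `I` -/
def addCls {k m : ℕ} (Γ : Fin k → Fin k → Bool) (O : Fin m → List (Fin k × Fin k))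
    (I : Finset (Fin m)) : Fin k → Fin k → Bool :=
  fun a b => Γ a b || decide (∃ j ∈ I, (a, b) ∈ O j)

/-- vertices: three blocks of size `p`, a cyclic part of size `x`, a fixed part of size `r` -/
abbrev WC (p x r : ℕ) : Type := (Fin 3 × ZMod p) ⊕ (ZMod x ⊕ Fin r)

/-- pattern `H` on the `x`-part; the `r`-part is a clique, completely joined to the blocks and not
joined to the `x`-part; the `x`-part is not joined to the blocks; on the blocks the graph `C` -/
def WG (p x r : ℕ) (H : SimpleGraph (ZMod x)) (C : SimpleGraph (Fin 3 × ZMod p)) :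
    SimpleGraph (WC p x r) where
  Adj
    | .inl u, .inl v => C.Adj u v
    | .inl _, .inr (.inl _) => False
    | .inr (.inl _), .inl _ => False
    | .inl _, .inr (.inr _) => True
    | .inr (.inr _), .inl _ => True
    | .inr (.inl a), .inr (.inl b) => H.Adj a b
    | .inr (.inl _), .inr (.inr _) => False
    | .inr (.inr _), .inr (.inl _) => False
    | .inr (.inr i), .inr (.inr j) => i ≠ j
  symm := ⟨by
    rintro (u | u | u) (v | v | v) h <;> simp_all [SimpleGraph.adj_comm, eq_comm]⟩
  loopless := ⟨by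
    rintro (u | u | u) h <;> simp_all⟩

/-- circulant pattern with differences `±1, …, ±t` inside the three blocks; different blocks are
completely joined iff `jj = true` -/
def CT (p t : ℕ) (jj : Bool) : SimpleGraph (Fin 3 × ZMod p) where
  Adj u v := u ≠ v ∧ ((u.1 ≠ v.1 ∧ jj = true) ∨
    (u.1 = v.1 ∧ ∃ d : ℕ, 1 ≤ d ∧ d ≤ t ∧ (v.2 = u.2 + d ∨ u.2 = v.2 + d)))
  symm := ⟨by
    rintro u v ⟨h, h'⟩
    refine ⟨h.symm, ?_⟩
    rcases h' with h' | ⟨h1, d, h2, h3, h4⟩
    · exact Or.inl ⟨h'.1.symm, h'.2⟩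
    · exact Or.inr ⟨h1.symm, d, h2, h3, h4.symm⟩⟩
  loopless := ⟨fun _ h => h.1 rfl⟩

end Pool.Agent.H119R2.Kp
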