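import Mathlib
import Pool.Agent.H8.KA.Lib.R_seed8.H98R2.Ev.T3
import Pool.Agent.H8.KA.Lib.R_seed8.H119R2.Kp.Defs

set_option autoImplicit false

/-! Decision trees. -/

namespace Pool.Agent.H119R2.Kp

open Finset
open Pool.Agent.H98R2.Ev (EV toG NE t3U t3B t3_agree t3_mem_toG)

theorem Dec.weaken {E : Type} [DecidableEq E] {q : ℕ} {D : Finset E → Prop} (h : Dec q D) :
    Dec (q + 1) D := by
  induction h with
  | const q D h => exact Dec.const _ _ h
  | node q D e _ _ ih0 ih1 => exact Dec.node _ _ e ih0 ih1

theorem Dec.congr {E : Type} [DecidableEq E] {q : ℕ} {D D' : Finset E → Prop} (h : Dec q D)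
    (hD : ∀ S, D S ↔ D' S) : Dec q D' := by
  have : D = D' := funext fun S => propext (hD S)
  rwa [← this]

theorem comap_cond_erase {E E' : Type} [DecidableEq E'] (φ : Finset E' → Finset E)
    (hφ : ∀ e, (∀ S, e ∈ φ S) ∨ (∀ S, e ∉ φ S) ∨ (∃ e', ∀ S, e ∈ φ S ↔ e' ∈ S) ∨
      (∃ e', ∀ S, e ∈ φ S ↔ e' ∉ S)) (x : E') :
    ∀ e, (∀ S : Finset E', e ∈ φ (S.erase x)) ∨ (∀ S : Finset E', e ∉ φ (S.erase x)) ∨
      (∃ e', ∀ S : Finset E', e ∈ φ (S.erase x) ↔ e' ∈ S) ∨
      (∃ e', ∀ S : Finset E', e ∈ φ (S.erase x) ↔ e' ∉ S) := by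
  intro e
  rcases hφ e with h | h | ⟨e', h⟩ | ⟨e', h⟩
  · exact Or.inl fun S => h _
  · exact Or.inr (Or.inl fun S => h _)
  · by_cases hx : e' = x
    · right; left
      intro S
      rw [h, hx]
      simp
    · right; right; left
      refine ⟨e', fun S => ?_⟩
      rw [h, mem_erase]
      exact ⟨fun h => h.2, fun h => ⟨hx, h⟩⟩
  · by_cases hx : e' = x
    · left
      intro S
      rw [h, hx]
      simp
    · right; right; right
      refine ⟨e', fun S => ?_⟩
      rw [h, mem_erase, not_and]
      exact ⟨fun h => h hx, fun h _ => h⟩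

theorem comap_cond_insert {E E' : Type} [DecidableEq E'] (φ : Finset E' → Finset E)
    (hφ : ∀ e, (∀ S, e ∈ φ S) ∨ (∀ S, e ∉ φ S) ∨ (∃ e', ∀ S, e ∈ φ S ↔ e' ∈ S) ∨
      (∃ e', ∀ S, e ∈ φ S ↔ e' ∉ S)) (x : E') :
    ∀ e, (∀ S, e ∈ φ (insert x S)) ∨ (∀ S, e ∉ φ (insert x S)) ∨
      (∃ e', ∀ S, e ∈ φ (insert x S) ↔ e' ∈ S) ∨ (∃ e', ∀ S, e ∈ φ (insert x S) ↔ e' ∉ S) := by
  intro e
  rcases hφ e with h | h | ⟨e', h⟩ | ⟨e', h⟩
  · exact Or.inl fun S => h _
  · exact Or.inr (Or.inl fun S => h _)
  · by_cases hx : e' = x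
    · left
      intro S
      rw [h, hx]
      simp
    · right; right; left
      refine ⟨e', fun S => ?_⟩
      rw [h, mem_insert]
      exact ⟨fun h => h.resolve_left hx, fun h => Or.inr h⟩
  · by_cases hx : e' = x
    · right; left
      intro S
      rw [h, hx]
      simp
    · right; right; right
      refine ⟨e', fun S => ?_⟩
      rw [h, mem_insert, not_or]
      exact ⟨fun h => h.2, fun h => ⟨hx, h⟩⟩

theorem Dec.comap {E E' : Type} [DecidableEq E] [DecidableEq E'] {q : ℕ} {D : Finset E → Prop}
    (h : Dec q D) (φ : Finset E' → Finset E)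
    (hφ : ∀ e, (∀ S, e ∈ φ S) ∨ (∀ S, e ∉ φ S) ∨ (∃ e', ∀ S, e ∈ φ S ↔ e' ∈ S) ∨
      (∃ e', ∀ S, e ∈ φ S ↔ e' ∉ S)) : Dec q (fun S => D (φ S)) := by
  induction h generalizing φ with
  | const q D h =>
    apply Dec.const
    rcases h with h | h
    · exact Or.inl fun S => h _
    · exact Or.inr fun S => h _
  | node q D e _ _ ih0 ih1 =>
    rcases hφ e with h | h | ⟨e', h⟩ | ⟨e', h⟩
    · refine ((ih1 φ hφ).congr fun S => ?_).weaken
      dsimp only
      rw [insert_eq_of_mem (h S)]
    · refine ((ih0 φ hφ).congr fun S => ?_).weaken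
      dsimp only
      rw [erase_eq_of_notMem (h S)]
    · refine Dec.node q _ e' ?_ ?_
      · refine (ih0 (fun S => φ (S.erase e')) (comap_cond_erase φ hφ e')).congr fun S => ?_
        dsimp only
        rw [erase_eq_of_notMem]
        rw [h]; simp
      · refine (ih1 (fun S => φ (insert e' S)) (comap_cond_insert φ hφ e')).congr fun S => ?_
        dsimp only
        rw [insert_eq_of_mem]
        rw [h]; simp
    · refine Dec.node q _ e' ?_ ?_
      · refine (ih1 (fun S => φ (S.erase e')) (comap_cond_erase φ hφ e')).congr fun S => ?_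
        dsimp only
        rw [insert_eq_of_mem]
        rw [h]; simp
      · refine (ih0 (fun S => φ (insert e' S)) (comap_cond_insert φ hφ e')).congr fun S => ?_
        dsimp only
        rw [erase_eq_of_notMem]
        rw [h]; simp

theorem ne_congr {E : Type} [DecidableEq E] {A : Finset E} {D : Finset E → Prop} (h : NE A D) :
    ∀ D' : Finset E → Prop, (∀ S, S ⊆ A → (D S ↔ D' S)) → NE A D' := by
  induction h with
  | const A D hA h =>
    intro D' hD
    refine NE.const A D' hA ?_
    rcases h with h | h
    · exact Or.inl fun S hS => (hD S hS).mp (h S hS)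
    · exact Or.inr fun S hS h' => h S hS ((hD S hS).mpr h')
  | node A D x hx _ _ ih0 ih1 =>
    intro D' hD
    refine NE.node A D' x hx (ih0 D' fun S hS => hD S (hS.trans (erase_subset _ _)))
      (ih1 _ fun S hS => hD _ ?_)
    intro y hy
    rw [mem_insert] at hy
    rcases hy with rfl | hy
    · exact hx
    · exact (erase_subset _ _) (hS hy)

theorem Dec.ne {E : Type} [DecidableEq E] {q : ℕ} {D : Finset E → Prop} (h : Dec q D)
    (A B : Finset E) (hAB : Disjoint A B) (hq : q < A.card) : NE A (fun S => ¬ D (B ∪ S)) := by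
  induction h generalizing A B with
  | const q D h =>
    refine NE.const A _ (card_pos.mp (by omega)) ?_
    rcases h with h | h
    · exact Or.inr fun S _ h' => h' (h _)
    · exact Or.inl fun S _ => h _
  | node q D e _ _ ih0 ih1 =>
    by_cases he : e ∈ A
    · have hc : q < (A.erase e).card := by rw [card_erase_of_mem he]; omega
      have hd : Disjoint (A.erase e) B := disjoint_of_subset_left (erase_subset _ _) hAB
      have heB : e ∉ B := disjoint_left.mp hAB he
      refine NE.node A _ e he ?_ ?_
      · refine ne_congr (ih0 (A.erase e) B hd hc) _ fun S hS => ?_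
        have : e ∉ B ∪ S := by
          rw [mem_union, not_or]
          exact ⟨heB, fun h => by simpa using hS h⟩
        dsimp only
        rw [erase_eq_of_notMem this]
      · refine ne_congr (ih1 (A.erase e) B hd hc) _ fun S hS => ?_
        rw [union_insert]
    · by_cases heB : e ∈ B
      · refine ne_congr (ih1 A B hAB (by omega)) _ fun S hS => ?_
        dsimp only
        rw [insert_eq_of_mem (mem_union_left _ heB)]
      · refine ne_congr (ih0 A B hAB (by omega)) _ fun S hS => ?_
        have : e ∉ B ∪ S := by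
          rw [mem_union, not_or]
          exact ⟨heB, fun h => he (hS h)⟩
        dsimp only
        rw [erase_eq_of_notMem this]

open Classical in
theorem dec_claim {n : ℕ} (P : SimpleGraph (Fin n) → Prop)
    (s : Finset (Sym2 (Fin n)) → SimpleGraph (Fin n) → Sym2 (Fin n))
    (hs : ∀ (Q : Finset (Sym2 (Fin n))) (G H : SimpleGraph (Fin n)),
      (∀ e ∈ Q, (e ∈ G.edgeSet ↔ e ∈ H.edgeSet)) → s Q G = s Q H) (k : ℕ) :
    ∀ (Q : Finset (Sym2 (Fin n))) (G : SimpleGraph (Fin n)),
      (∀ G' : SimpleGraph (Fin n), (∀ e ∈ Q, (e ∈ G'.edgeSet ↔ e ∈ G.edgeSet)) →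
        ∀ H' : SimpleGraph (Fin n),
          (∀ e ∈ (fun Q : Finset (Sym2 (Fin n)) => insert (s Q G') Q)^[k] Q,
            (e ∈ G'.edgeSet ↔ e ∈ H'.edgeSet)) → P G' → P H') →
      Dec k (fun S : Finset (EV (Fin n)) => P (toG ((S ∩ t3U Q) ∪ t3B Q G))) := by
  induction k with
  | zero =>
    intro Q G hyp
    simp only [Function.iterate_zero, id_eq] at hyp
    have hag : ∀ S : Finset (EV (Fin n)), ∀ e ∈ Q,
        (e ∈ (toG ((S ∩ t3U Q) ∪ t3B Q G)).edgeSet ↔ e ∈ G.edgeSet) :=
      fun S => t3_agree Q G _ inter_subset_right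
    have hsame : ∀ S S' : Finset (EV (Fin n)), P (toG ((S ∩ t3U Q) ∪ t3B Q G)) →
        P (toG ((S' ∩ t3U Q) ∪ t3B Q G)) := by
      intro S S' h
      exact hyp _ (hag S) _ (fun e he => (hag S e he).trans (hag S' e he).symm) h
    refine Dec.const 0 _ ?_
    by_cases hP : P (toG ((∅ ∩ t3U Q) ∪ t3B Q G))
    · exact Or.inl fun S => hsame ∅ S hP
    · exact Or.inr fun S h => hP (hsame S ∅ h)
  | succ k ih =>
    intro Q G hyp
    simp only [Function.iterate_succ, Function.comp] at hyp
    by_cases hx : s Q G ∈ Q
    · refine (ih Q G ?_).weaken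
      intro G' hG' H' hH'
      refine hyp G' hG' H' ?_
      have e1 : s Q G' = s Q G := hs Q G' G hG'
      rw [e1, Finset.insert_eq_of_mem hx]
      exact hH'
    · by_cases hd : (s Q G).IsDiag
      · have hU : t3U (insert (s Q G) Q) = t3U Q := by
          ext e
          simp only [t3U, mem_filter, mem_univ, true_and, mem_insert, not_or]
          constructor
          · exact fun h => h.2
          · refine fun h => ⟨?_, h⟩
            intro he
            exact e.2 (by rw [he]; exact hd)
        have hB : t3B (insert (s Q G) Q) G = t3B Q G := by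
          ext e
          simp only [t3B, mem_filter, mem_univ, true_and, mem_insert]
          constructor
          · rintro ⟨h | h, h'⟩
            · exact absurd (by rw [h]; exact hd) e.2
            · exact ⟨h, h'⟩
          · rintro ⟨h, h'⟩
            exact ⟨Or.inr h, h'⟩
        have := ih (insert (s Q G) Q) G ?_
        · rw [hU, hB] at this
          exact this.weaken
        · intro G' hG' H' hH'
          have hG'' : ∀ e ∈ Q, (e ∈ G'.edgeSet ↔ e ∈ G.edgeSet) :=
            fun e he => hG' e (mem_insert_of_mem he)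
          refine hyp G' hG'' H' ?_
          have e1 : s Q G' = s Q G := hs Q G' G hG''
          rw [e1]
          exact hH'
      · -- a real query
        obtain ⟨x₀, hx₀⟩ : ∃ x₀ : EV (Fin n), x₀.1 = s Q G := ⟨⟨s Q G, hd⟩, rfl⟩
        rw [← hx₀] at hx
        have hxU : x₀ ∈ t3U Q := by
          simp only [t3U, mem_filter, mem_univ, true_and]
          exact hx
        have hU : t3U (insert x₀.1 Q) = (t3U Q).erase x₀ := by
          ext e
          simp only [t3U, mem_filter, mem_univ, true_and, mem_insert, not_or, mem_erase, ne_eq,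
            Subtype.ext_iff]
        -- the hypothesis is inherited by both answers
        have hinh : ∀ G₁ : SimpleGraph (Fin n), (∀ e ∈ Q, (e ∈ G₁.edgeSet ↔ e ∈ G.edgeSet)) →
            Dec k (fun S => P (toG ((S ∩ t3U (insert x₀.1 Q)) ∪ t3B (insert x₀.1 Q) G₁))) := by
          intro G₁ h₁
          refine ih (insert x₀.1 Q) G₁ ?_
          intro G' hG' H' hH'
          have hG'' : ∀ e ∈ Q, (e ∈ G'.edgeSet ↔ e ∈ G.edgeSet) :=
            fun e he => (hG' e (mem_insert_of_mem he)).trans (h₁ e he)
          refine hyp G' hG'' H' ?_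
          have e1 : s Q G' = x₀.1 := by rw [hx₀]; exact hs Q G' G hG''
          rw [e1]
          exact hH'
        have hBe : ∀ e : EV (Fin n), e ∈ t3B Q G → e.1 ∈ Q := by
          intro e he
          simp only [t3B, mem_filter, mem_univ, true_and] at he
          exact he.1
        refine Dec.node k _ x₀ ?_ ?_
        · have h0 := hinh (toG (∅ ∪ t3B Q G)) (t3_agree Q G ∅ (Finset.empty_subset _))
          have hB : t3B (insert x₀.1 Q) (toG (∅ ∪ t3B Q G)) = t3B Q G := by
            ext e
            unfold t3B
            rw [mem_filter, t3_mem_toG, Finset.empty_union]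
            constructor
            · rintro ⟨_, _, _, h2⟩
              exact h2
            · intro h2
              exact ⟨mem_univ _, mem_insert_of_mem (hBe e h2), e.2, h2⟩
          rw [hB, hU] at h0
          refine h0.congr fun S => ?_
          have : S ∩ (t3U Q).erase x₀ = (S.erase x₀) ∩ t3U Q := by
            ext e
            simp only [mem_inter, mem_erase]
            tauto
          rw [this]
        · obtain ⟨B', hB'⟩ : ∃ B' : Finset (EV (Fin n)), B' = insert x₀ (t3B Q G) := ⟨_, rfl⟩
          have hag : ∀ e ∈ Q, (e ∈ (toG B').edgeSet ↔ e ∈ G.edgeSet) := by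
            intro e he
            rw [← t3_agree Q G ∅ (Finset.empty_subset _) e he, t3_mem_toG, t3_mem_toG,
              Finset.empty_union, hB']
            constructor
            · rintro ⟨h, h1⟩
              refine ⟨h, ?_⟩
              rw [mem_insert] at h1
              rcases h1 with h1 | h1
              · exfalso
                have : e = x₀.1 := congrArg Subtype.val h1
                exact hx (this ▸ he)
              · exact h1
            · rintro ⟨h, h1⟩
              exact ⟨h, mem_insert_of_mem h1⟩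
          have h1 := hinh (toG B') hag
          have hB : t3B (insert x₀.1 Q) (toG B') = B' := by
            ext e
            constructor
            · intro he
              unfold t3B at he
              rw [mem_filter, t3_mem_toG] at he
              obtain ⟨_, _, _, h2⟩ := he
              exact h2
            · intro he
              unfold t3B
              rw [mem_filter, t3_mem_toG]
              refine ⟨mem_univ _, ?_, e.2, he⟩
              rw [hB', mem_insert] at he
              rcases he with he | he
              · rw [he]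
                exact mem_insert_self _ _
              · exact mem_insert_of_mem (hBe e he)
          rw [hB, hU] at h1
          refine h1.congr fun S => ?_
          have : S ∩ (t3U Q).erase x₀ ∪ B' = (insert x₀ S) ∩ t3U Q ∪ t3B Q G := by
            rw [hB']
            ext e
            simp only [mem_inter, mem_erase, mem_union, mem_insert]
            by_cases he : e = x₀
            · subst he
              simp [hxU]
            · simp [he]
          rw [this]

theorem dec_of_strategy {n : ℕ} (q : ℕ) (P : SimpleGraph (Fin n) → Prop)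
    (s : Finset (Sym2 (Fin n)) → SimpleGraph (Fin n) → Sym2 (Fin n))
    (hs : ∀ (Q : Finset (Sym2 (Fin n))) (G H : SimpleGraph (Fin n)),
      (∀ e ∈ Q, (e ∈ G.edgeSet ↔ e ∈ H.edgeSet)) → s Q G = s Q H)
    (h : ∀ G H : SimpleGraph (Fin n),
      (∀ e ∈ (fun Q : Finset (Sym2 (Fin n)) => insert (s Q G) Q)^[q] (∅ : Finset (Sym2 (Fin n))),
        (e ∈ G.edgeSet ↔ e ∈ H.edgeSet)) → P G → P H) :
    Dec q (fun S : Finset (EV (Fin n)) => P (toG S)) := by
  classical
  have hU : t3U (∅ : Finset (Sym2 (Fin n))) = univ := by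
    ext e
    simp [t3U]
  have hB : t3B (∅ : Finset (Sym2 (Fin n))) ⊥ = ∅ := by
    ext e
    simp [t3B]
  have h1 := dec_claim P s hs q ∅ ⊥ (fun G' _ H' hH' hP => h G' H' hH' hP)
  rw [hU, hB] at h1
  refine Dec.congr ?_ (fun S => ?_) (D := fun S : Finset (EV (Fin n)) =>
    P (toG ((S ∩ univ) ∪ ∅)))
  · convert h1
  · simp

end Pool.Agent.H119R2.Kp
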