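import Mathlib
import Pool.Agent.H8.KA.Lib.R_seed8.H119R2.Kp.Defs
import Pool.Agent.H8.KA.Lib.R_seed8.H98R2.Ev.T8

set_option autoImplicit false

/-! K1: the alternating sum over unions of orbits vanishes (helper797). -/

namespace Pool.Agent.H119R2.Kp

open Finset
open Pool.Agent.H98R2.Ev (EV toG NE Ch fixIn faces act Acyc ne_acyc smith lefschetz act_apply
  map_mul_perm map_one_perm act_iter)

namespace K1

section Chains

variable {X : Type} [DecidableEq X] [PartialOrder X] [Fintype X]

open Classical in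
/-- reduced Euler characteristic (with sign) of the order complex of `Q` -/
noncomputable def eu (Q : Finset X) : ℤ :=
  ∑ σ ∈ univ.filter (fun σ : Finset X => Ch Q σ), (-1 : ℤ) ^ σ.card

lemma eu_empty : eu (∅ : Finset X) = 1 := by
  classical
  unfold eu
  have : univ.filter (fun σ : Finset X => Ch ∅ σ) = {∅} := by
    ext σ
    simp only [mem_filter, mem_univ, true_and, mem_singleton, Ch, subset_empty]
    constructor
    · exact fun h => h.1
    · rintro rfl; exact ⟨rfl, by simp⟩
  rw [this]; simp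

open Classical in
lemma eu_insert (Q : Finset X) (T : X) (hT : T ∉ Q) (hmax : ∀ S ∈ Q, ¬ T ≤ S) :
    eu (insert T Q) = eu Q - eu (Q.filter (fun S => S < T)) := by
  classical
  unfold eu
  have h1 : univ.filter (fun σ : Finset X => Ch (insert T Q) σ) =
      univ.filter (fun σ : Finset X => Ch Q σ) ∪
        (univ.filter (fun σ : Finset X => Ch (Q.filter (fun S => S < T)) σ)).image (insert T) := by
    ext σ
    simp only [mem_filter, mem_univ, true_and, mem_union, mem_image]
    constructor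
    · rintro ⟨h1, h2⟩
      by_cases hTσ : T ∈ σ
      · right
        refine ⟨σ.erase T, ⟨?_, h2.mono (coe_subset.2 (erase_subset T σ))⟩, insert_erase hTσ⟩
        intro S hS
        obtain ⟨hne, hS'⟩ := mem_erase.1 hS
        have hSQ : S ∈ Q := (mem_insert.1 (h1 hS')).resolve_left hne
        have := h2 (mem_coe.2 hS') (mem_coe.2 hTσ) hne
        rcases this with h | h
        · exact mem_filter.2 ⟨hSQ, lt_of_le_of_ne h hne⟩
        · exact absurd h (hmax S hSQ)
      · left
        refine ⟨fun S hS => ?_, h2⟩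
        rcases mem_insert.1 (h1 hS) with rfl | h
        · exact absurd hS hTσ
        · exact h
    · rintro (⟨h1, h2⟩ | ⟨τ, ⟨h1, h2⟩, rfl⟩)
      · exact ⟨h1.trans (subset_insert _ _), h2⟩
      · refine ⟨insert_subset_insert _ (h1.trans (filter_subset _ _)), ?_⟩
        rw [coe_insert]
        exact h2.insert (fun b hb _ => Or.inr (mem_filter.1 (h1 hb)).2.le)
  have hTn : ∀ τ : Finset X, Ch (Q.filter (fun S => S < T)) τ → T ∉ τ := by
    intro τ h hh
    exact lt_irrefl T (mem_filter.1 (h.1 hh)).2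
  rw [h1, sum_union, sum_image]
  · rw [sub_eq_add_neg, ← sum_neg_distrib]
    congr 1
    apply sum_congr rfl
    intro τ hτ
    rw [card_insert_of_notMem (hTn τ (mem_filter.1 hτ).2), pow_succ]
    ring
  · intro τ hτ τ' hτ' he
    have h2 := hTn τ (mem_filter.1 hτ).2
    have h3 := hTn τ' (mem_filter.1 hτ').2
    have := congrArg (fun s => s.erase T) he
    simpa [erase_insert h2, erase_insert h3] using this
  · rw [disjoint_left]
    intro σ hσ hσ'
    obtain ⟨τ, _, rfl⟩ := mem_image.1 hσ'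
    exact hT ((mem_filter.1 hσ).2.1 (mem_insert_self T τ))

end Chains

/-- alternating sum over proper subsets -/
lemma alt_ssub {α : Type} [DecidableEq α] (T : Finset α) (hT : T.Nonempty) :
    ∑ I ∈ T.ssubsets, (-1 : ℤ) ^ I.card = -(-1 : ℤ) ^ T.card := by
  have h := Finset.sum_powerset_neg_one_pow_card_of_nonempty hT
  have h2 : T.powerset = insert T T.ssubsets := by
    ext S
    simp only [mem_powerset, mem_insert, mem_ssubsets]
    constructor
    · intro h
      rcases eq_or_ssubset_of_subset h with h | h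
      · exact Or.inl h
      · exact Or.inr h
    · rintro (rfl | h)
      · exact Subset.refl _
      · exact h.1
  rw [h2, sum_insert (by simp)] at h
  linarith

open Classical in
lemma eu_family {X : Type} [DecidableEq X] [PartialOrder X] [Fintype X] {m : ℕ}
    (φ : Finset (Fin m) → X) (hφ : ∀ I J, φ I ≤ φ J ↔ I ⊆ J) :
    ∀ (N : ℕ) (K : Finset (Finset (Fin m))), K.card = N → ∅ ∈ K →
      (∀ I ∈ K, ∀ J, J ⊆ I → J ∈ K) →
      eu ((K.erase ∅).image φ) = ∑ I ∈ K, (-1 : ℤ) ^ I.card := by
  have hinj : Function.Injective φ := by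
    intro I J h
    exact Subset.antisymm ((hφ I J).1 h.le) ((hφ J I).1 h.ge)
  have hlt : ∀ I J, φ I < φ J ↔ I ⊂ J := by
    intro I J
    rw [lt_iff_le_not_ge, hφ, hφ]; rfl
  intro N
  induction N using Nat.strong_induction_on with
  | _ N ih =>
  intro K hK h0 hdown
  by_cases hex : (K.erase ∅).Nonempty
  · obtain ⟨T, hT⟩ := (K.erase ∅).exists_maximal hex
    have hTK : T ∈ K := mem_of_mem_erase hT.1
    have hTne : T ≠ ∅ := ne_of_mem_erase hT.1
    have hTN : T.Nonempty := nonempty_iff_ne_empty.2 hTne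
    have hmax : ∀ S ∈ K.erase ∅, T ⊆ S → S = T := fun S hS h =>
      Subset.antisymm (hT.2 hS h) h
    -- remove `T`
    have hK1 : (K.erase T).card < N := by rw [← hK]; exact card_erase_lt_of_mem hTK
    have i1 := ih _ hK1 (K.erase T) rfl (mem_erase.2 ⟨hTne.symm, h0⟩) (by
      intro I hI J hJ
      refine mem_erase.2 ⟨?_, hdown I (mem_of_mem_erase hI) J hJ⟩
      rintro rfl
      have hI0 : I ∈ K.erase ∅ := by
        refine mem_erase.2 ⟨?_, mem_of_mem_erase hI⟩
        rintro rfl
        exact hTne (subset_empty.1 hJ)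
      exact ne_of_mem_erase hI (hmax I hI0 hJ))
    have hsub : T.ssubsets ⊆ K.erase T := by
      intro S hS
      rw [mem_ssubsets] at hS
      exact mem_erase.2 ⟨hS.ne, hdown T hTK S hS.1⟩
    have i2 := ih _ ((card_le_card hsub).trans_lt hK1) T.ssubsets rfl
      (empty_mem_ssubsets hTN) (by
      intro I hI J hJ
      rw [mem_ssubsets] at hI ⊢
      exact lt_of_le_of_lt hJ hI)
    rw [alt_ssub T hTN] at i2
    have e1 : (K.erase ∅).image φ = insert (φ T) (((K.erase T).erase ∅).image φ) := by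
      rw [← image_insert]
      congr 1
      ext S
      simp only [mem_erase, mem_insert]
      constructor
      · rintro ⟨h1, h2⟩
        by_cases h3 : S = T
        · exact Or.inl h3
        · exact Or.inr ⟨h1, h3, h2⟩
      · rintro (rfl | ⟨h1, _, h2⟩)
        · exact ⟨hTne, hTK⟩
        · exact ⟨h1, h2⟩
    have e2 : (((K.erase T).erase ∅).image φ).filter (fun S => S < φ T) =
        ((T.ssubsets).erase ∅).image φ := by
      ext x
      simp only [mem_filter, mem_image, mem_erase, mem_ssubsets]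
      constructor
      · rintro ⟨⟨S, ⟨h1, h2, h3⟩, rfl⟩, h4⟩
        exact ⟨S, ⟨h1, (hlt S T).1 h4⟩, rfl⟩
      · rintro ⟨S, ⟨h1, h2⟩, rfl⟩
        exact ⟨⟨S, ⟨h1, h2.ne, hdown T hTK S h2.1⟩, rfl⟩, (hlt S T).2 h2⟩
    rw [e1, eu_insert, e2, i1, i2, ← add_sum_erase K _ hTK]
    · ring
    · rw [mem_image]
      rintro ⟨S, hS, he⟩
      rw [hinj he] at hS
      exact absurd rfl (ne_of_mem_erase (mem_of_mem_erase hS))
    · intro x hx hle
      obtain ⟨S, hS, rfl⟩ := mem_image.1 hx
      rw [hφ] at hle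
      have hS2 : S ∈ K.erase ∅ :=
        mem_erase.2 ⟨ne_of_mem_erase hS, mem_of_mem_erase (mem_of_mem_erase hS)⟩
      have := hmax S hS2 hle
      exact ne_of_mem_erase (mem_of_mem_erase hS) this
  · rw [not_nonempty_iff_eq_empty] at hex
    rw [hex, image_empty, eu_empty]
    have : K = {∅} := by
      rw [← insert_erase h0, hex]
      rfl
    rw [this]; simp

end K1

open K1 in
theorem orbit_sum {E : Type} [Fintype E] [DecidableEq E] (A : Finset E) (D : Finset E → Prop)
    [DecidablePred D]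
    (hdown : ∀ S T, S ⊆ T → T ⊆ A → D T → D S) (hne : NE A D)
    (p : ℕ) [Fact p.Prime] {ι : Type} [Fintype ι] (a : ι → Equiv.Perm E) (c : Equiv.Perm E)
    (hcomm : ∀ i j, a i * a j = a j * a i) (hap : ∀ i, a i ^ p = 1)
    (hAa : ∀ i, A.map (a i).toEmbedding = A) (hAc : A.map c.toEmbedding = A)
    (hDa : ∀ i S, S ⊆ A → D S → D (S.map (a i).toEmbedding))
    (hDc : ∀ S, S ⊆ A → D S → D (S.map c.toEmbedding))
    (hca : ∀ S : Finset E, (∀ i, S.map (a i).toEmbedding = S) →
      ∀ i, (S.map c.toEmbedding).map (a i).toEmbedding = S.map c.toEmbedding)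
    {m : ℕ} (O : Fin m → Finset E) (hO : ∀ j, (O j).Nonempty)
    (hdisj : ∀ i j, i ≠ j → Disjoint (O i) (O j)) (hOA : univ.biUnion O = A)
    (hinv : ∀ S, S ⊆ A → (∀ i, S.map (a i).toEmbedding = S) → S.map c.toEmbedding = S →
      ∃ I : Finset (Fin m), S = I.biUnion O)
    (hOa : ∀ j i, (O j).map (a i).toEmbedding = O j) (hOc : ∀ j, (O j).map c.toEmbedding = O j) :
    ∑ I : Finset (Fin m), (-1 : ℤ) ^ I.card * (if D (I.biUnion O) then 1 else 0) = 0 := by
  classical
  have hsubA : ∀ I : Finset (Fin m), I.biUnion O ⊆ A := by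
    intro I
    rw [← hOA]
    exact biUnion_subset_biUnion_of_subset_left _ (subset_univ I)
  by_cases h0 : D ∅
  swap
  · apply sum_eq_zero
    intro I _
    rw [if_neg (fun h => h0 (hdown ∅ _ (empty_subset _) (hsubA I) h)), mul_zero]
  have hmem : ∀ S : Finset E, S ∈ faces A D ↔ S ⊆ A ∧ S.Nonempty ∧ D S := by
    intro S
    simp [faces]
  have hA : Acyc (ZMod p) (faces A D) := by
    rcases ne_acyc (F := ZMod p) A D hdown hne with h | h
    · exact absurd h0 (h ∅ (empty_subset _))
    · exact h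
  have hJ : ∀ J : Finset ι, Acyc (ZMod p)
      ((faces A D).filter (fun S => ∀ i ∈ J, S.map (a i).toEmbedding = S)) := by
    intro J
    induction J using Finset.induction_on with
    | empty => simpa using hA
    | insert i J hi ih =>
      have h1 := smith p _ ih (act (a i)) (by
        intro S hS
        rw [Finset.mem_filter, hmem] at hS ⊢
        obtain ⟨⟨hS0, hS1, hS2⟩, hS3⟩ := hS
        rw [act_apply]
        refine ⟨⟨?_, (Finset.map_nonempty).2 hS1, hDa i S hS0 hS2⟩, ?_⟩
        · rw [← hAa i]; exact Finset.map_subset_map.2 hS0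
        intro j hj
        rw [← map_mul_perm, hcomm j i, map_mul_perm, hS3 j hj]) (by
        intro S
        rw [act_iter, hap i, map_one_perm])
      convert h1 using 1
      ext S
      constructor
      · intro hS
        rw [Finset.mem_filter] at hS
        obtain ⟨h1, h2⟩ := hS
        refine Finset.mem_filter.2 ⟨Finset.mem_filter.2
          ⟨h1, fun j hj => h2 j (Finset.mem_insert_of_mem hj)⟩, ?_⟩
        exact h2 i (Finset.mem_insert_self i J)
      · intro hS
        obtain ⟨h1, h3⟩ := Finset.mem_filter.1 hS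
        obtain ⟨h1, h2⟩ := Finset.mem_filter.1 h1
        refine Finset.mem_filter.2 ⟨h1, fun j hj => ?_⟩
        rcases Finset.mem_insert.1 hj with rfl | hj
        · exact h3
        · exact h2 j hj
  set QP := (faces A D).filter (fun S => ∀ i ∈ (univ : Finset ι), S.map (a i).toEmbedding = S)
    with hQP
  have hmemP : ∀ S : Finset E, S ∈ QP ↔
      (S ⊆ A ∧ S.Nonempty ∧ D S) ∧ ∀ i, S.map (a i).toEmbedding = S := by
    intro S
    rw [hQP, Finset.mem_filter, hmem]
    simp
  have hL := lefschetz p QP (hJ univ) (act c) (by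
    intro S hS
    rw [hmemP] at hS ⊢
    obtain ⟨⟨hS0, hS1, hS2⟩, hS3⟩ := hS
    rw [act_apply]
    refine ⟨⟨?_, (Finset.map_nonempty).2 hS1, hDc S hS0 hS2⟩, hca S hS3⟩
    rw [← hAc]; exact Finset.map_subset_map.2 hS0)
  have hmemC : ∀ S : Finset E, S ∈ fixIn QP (act c) ↔
      ((S ⊆ A ∧ S.Nonempty ∧ D S) ∧ ∀ i, S.map (a i).toEmbedding = S) ∧
        S.map c.toEmbedding = S := by
    intro S
    constructor
    · intro hS
      obtain ⟨h1, h2⟩ := Finset.mem_filter.1 hS
      exact ⟨(hmemP S).1 h1, h2⟩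
    · rintro ⟨h1, h2⟩
      exact Finset.mem_filter.2 ⟨(hmemP S).2 h1, h2⟩
  set K : Finset (Finset (Fin m)) := univ.filter (fun I => D (I.biUnion O)) with hK
  have hKm : ∀ I, I ∈ K ↔ D (I.biUnion O) := by intro I; simp [hK]
  have hmapU : ∀ (I : Finset (Fin m)) (π : Equiv.Perm E),
      (∀ j, (O j).map π.toEmbedding = O j) → (I.biUnion O).map π.toEmbedding = I.biUnion O := by
    intro I π h
    ext x
    simp only [mem_map, mem_biUnion]
    constructor
    · rintro ⟨y, ⟨j, hj, hy⟩, rfl⟩
      refine ⟨j, hj, ?_⟩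
      rw [← h j]
      exact mem_map_of_mem _ hy
    · rintro ⟨j, hj, hx⟩
      rw [← h j, mem_map] at hx
      obtain ⟨y, hy, rfl⟩ := hx
      exact ⟨y, ⟨j, hj, hy⟩, rfl⟩
  have hφ : ∀ I J : Finset (Fin m), I.biUnion O ≤ J.biUnion O ↔ I ⊆ J := by
    intro I J
    constructor
    · intro h j hj
      obtain ⟨x, hx⟩ := hO j
      have := h (mem_biUnion.2 ⟨j, hj, hx⟩)
      obtain ⟨j', hj', hx'⟩ := mem_biUnion.1 this
      by_cases e : j = j'
      · rwa [e]
      · exact absurd hx' (disjoint_left.1 (hdisj j j' e) hx)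
    · intro h
      exact biUnion_subset_biUnion_of_subset_left _ h
  have hQ : fixIn QP (act c) = (K.erase ∅).image (fun I => I.biUnion O) := by
    ext S
    rw [hmemC, mem_image]
    constructor
    · rintro ⟨⟨⟨h1, h2, h3⟩, h4⟩, h5⟩
      obtain ⟨I, rfl⟩ := hinv S h1 h4 h5
      refine ⟨I, mem_erase.2 ⟨?_, (hKm I).2 h3⟩, rfl⟩
      rintro rfl
      simp at h2
    · rintro ⟨I, hI, rfl⟩
      refine ⟨⟨⟨hsubA I, ?_, (hKm I).1 (mem_of_mem_erase hI)⟩,
        fun i => hmapU I (a i) (fun j => hOa j i)⟩, hmapU I c hOc⟩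
      obtain ⟨j, hj⟩ := nonempty_iff_ne_empty.2 (ne_of_mem_erase hI)
      obtain ⟨x, hx⟩ := hO j
      exact ⟨x, mem_biUnion.2 ⟨j, hj, hx⟩⟩
  have hE := eu_family (fun I : Finset (Fin m) => I.biUnion O) hφ K.card K rfl
    ((hKm ∅).2 (by simpa using h0)) (by
      intro I hI J hJ
      rw [hKm] at hI ⊢
      exact hdown _ _ ((hφ J I).2 hJ) (hsubA I) hI)
  rw [← hQ] at hE
  unfold eu at hE
  rw [hL] at hE
  rw [hK, sum_filter] at hE
  refine Eq.trans ?_ hE.symm
  apply sum_congr rfl
  intro I _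
  split_ifs <;> simp

end Pool.Agent.H119R2.Kp
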