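import Mathlib
import Pool.Agent.H8.KA.Lib.R_seed8.H98R2.Ev.T11
import Pool.Agent.H8.KA.Lib.R_seed8.H98R2.Ev.T12a
import Pool.Agent.H8.KA.Lib.R_seed8.H119R2.Kp.Defs
import Pool.Agent.H8.KA.Lib.R_seed8.H119R2.Kp.K1
import Pool.Agent.H8.KA.Lib.R_seed8.H119R2.Kp.D

set_option autoImplicit false

/-!
# Task REL: the relation on an arbitrary vertex set (helper8)
-/

namespace Pool.Agent.H119R2.Kp

open Finset
open Pool.Agent.H98R2.Ev (EV toG NE)


namespace RelAux

open Pool.Agent.H98R2.Ev

/-- the value on any vertex set can be computed with a fixed bijection -/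
theorem PV_iff {n q : ℕ} {P : SimpleGraph (Fin n) → Prop} (hP : GP n q P) {V : Type}
    (e0 : V ≃ Fin n) (G : SimpleGraph V) : PV P V G ↔ P (G.map e0.toEmbedding) := by
  constructor
  · rintro ⟨e, he⟩
    have h := hP.iso (e.symm.trans e0) _ he
    rw [SimpleGraph.map_map] at h
    have h2 : ⇑(e.symm.trans e0).toEmbedding ∘ ⇑e.toEmbedding = ⇑e0.toEmbedding := by
      funext x; simp
    rwa [h2] at h
  · intro h
    exact ⟨e0, h⟩

theorem PV_mono {n q : ℕ} {P : SimpleGraph (Fin n) → Prop} (hP : GP n q P) {V : Type}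
    {G H : SimpleGraph V} (hGH : G ≤ H) (h : PV P V G) : PV P V H := by
  obtain ⟨e, he⟩ := h
  exact ⟨e, hP.mono _ _ (SimpleGraph.map_monotone _ hGH) he⟩

theorem PV_perm {n q : ℕ} {P : SimpleGraph (Fin n) → Prop} (_hP : GP n q P) {V : Type}
    (g : Equiv.Perm V) (G : SimpleGraph V) (h : PV P V (G.map g.toEmbedding)) : PV P V G := by
  obtain ⟨e, he⟩ := h
  refine ⟨g.trans e, ?_⟩
  rw [SimpleGraph.map_map] at he
  exact he

set_option linter.unusedSectionVars false
set_option linter.unusedTactic false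

variable {V : Type} [DecidableEq V] [Fintype V]

open Classical in
/-- the edges of a graph -/
noncomputable def ED (G : SimpleGraph V) : Finset (EV V) := univ.filter fun e => e.1 ∈ G.edgeSet

theorem mem_ED (G : SimpleGraph V) (e : EV V) : e ∈ ED G ↔ e.1 ∈ G.edgeSet := by
  classical
  simp [ED]

theorem toG_ED (G : SimpleGraph V) : toG (ED G) = G := by
  ext a b
  rw [toG_adj]
  constructor
  · rintro ⟨h, h'⟩
    rw [mem_ED] at h'
    exact h'
  · intro h
    refine ⟨?_, ?_⟩
    · rw [Sym2.mk_isDiag_iff]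
      exact h.ne
    · rw [mem_ED]
      exact h

theorem ED_toG (S : Finset (EV V)) : ED (toG S) = S := by
  ext e
  rw [mem_ED, toG_edgeSet]
  constructor
  · rintro ⟨e', h, h'⟩
    rwa [← Subtype.ext h']
  · intro h
    exact ⟨e, h, rfl⟩

theorem card_ED (G : SimpleGraph V) : (ED G).card = Nat.card G.edgeSet := by
  rw [← toG_card, toG_ED]
  rfl

theorem toG_union (S T : Finset (EV V)) : toG (S ∪ T) = toG S ⊔ toG T := by
  ext a b
  rw [SimpleGraph.sup_adj, toG_adj, toG_adj, toG_adj]
  constructor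
  · rintro ⟨h, h'⟩
    rcases mem_union.1 h' with h'' | h''
    · exact Or.inl ⟨h, h''⟩
    · exact Or.inr ⟨h, h''⟩
  · rintro (⟨h, h'⟩ | ⟨h, h'⟩)
    · exact ⟨h, mem_union_left _ h'⟩
    · exact ⟨h, mem_union_right _ h'⟩

theorem toG_biUnion {m : ℕ} (R : Fin m → SimpleGraph V) (I : Finset (Fin m)) :
    toG (I.biUnion fun j => ED (R j)) = ⨆ j ∈ I, R j := by
  ext a b
  rw [toG_adj]
  simp only [SimpleGraph.iSup_adj, mem_biUnion, mem_ED]
  constructor
  · rintro ⟨h, j, hj, h'⟩
    exact ⟨j, hj, h'⟩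
  · rintro ⟨j, hj, h⟩
    refine ⟨?_, j, hj, h⟩
    rw [Sym2.mk_isDiag_iff]
    exact h.ne

theorem map_ep_toG (g : Equiv.Perm V) (S : Finset (EV V)) :
    toG (S.map (ep g).toEmbedding) = (toG S).map g.toEmbedding := toG_map g S

theorem ep_val (g : Equiv.Perm V) (e : EV V) : (ep g e).1 = Sym2.map g e.1 := rfl

/-- a graph preserved by `g` has a preserved edge set -/
theorem ED_map (g : Equiv.Perm V) (G : SimpleGraph V)
    (hG : ∀ u v, G.Adj u v → G.Adj (g u) (g v)) : (ED G).map (ep g).toEmbedding = ED G := by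
  refine eq_of_subset_of_card_le ?_ (by rw [card_map])
  intro e he
  rw [mem_map] at he
  obtain ⟨e', he', rfl⟩ := he
  rw [mem_ED] at he' ⊢
  change Sym2.map g e'.1 ∈ G.edgeSet
  revert he'
  refine Sym2.ind (fun u v => ?_) e'.1
  intro h
  exact hG u v h

theorem inv_closure (S : Finset (EV V)) (X : Set (Equiv.Perm V))
    (hX : ∀ g ∈ X, S.map (ep g).toEmbedding = S) (g : Equiv.Perm V)
    (hg : g ∈ Subgroup.closure X) : S.map (ep g).toEmbedding = S := by
  induction hg using Subgroup.closure_induction with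
  | mem x hx => exact hX x hx
  | one => rw [ep_one]; exact Finset.map_refl
  | mul x y _ _ hx hy => rw [← mp_mul, hy, hx]
  | inv x _ hx =>
    conv_lhs => rw [← hx]
    rw [mp_mul, inv_mul_cancel, ep_one]
    exact Finset.map_refl

end RelAux

open RelAux Pool.Agent.H98R2.Ev in
open Classical in
theorem rel {n q : ℕ} {P : SimpleGraph (Fin n) → Prop} (hP : GP n q P) {V : Type} [Fintype V]
    [DecidableEq V] (hV : Fintype.card V = n) (p : ℕ) [Fact p.Prime] {ι : Type} [Fintype ι]
    (a : ι → Equiv.Perm V) (c : Equiv.Perm V)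
    (hcomm : ∀ i j, a i * a j = a j * a i) (hap : ∀ i, a i ^ p = 1)
    (hca : ∀ i, c⁻¹ * a i * c ∈ Subgroup.closure (Set.range a))
    {m : ℕ} (B : SimpleGraph V) (R : Fin m → SimpleGraph V)
    (hBa : ∀ i u v, B.Adj u v → B.Adj (a i u) (a i v)) (hBc : ∀ u v, B.Adj u v → B.Adj (c u) (c v))
    (hRa : ∀ j i u v, (R j).Adj u v → (R j).Adj (a i u) (a i v))
    (hRc : ∀ j u v, (R j).Adj u v → (R j).Adj (c u) (c v))
    (hd : ∀ i j, i ≠ j → Disjoint (R i) (R j)) (hd0 : ∀ i, Disjoint B (R i))
    (hne : ∀ j, ∃ u v, (R j).Adj u v)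
    (htr : ∀ j u v u' v', (R j).Adj u v → (R j).Adj u' v' →
      ∃ g ∈ Subgroup.closure (insert c (Set.range a)), (g u = u' ∧ g v = v') ∨ (g u = v' ∧ g v = u'))
    (hq : q < ∑ j, Nat.card (R j).edgeSet) :
    ∑ I : Finset (Fin m), (-1 : ℤ) ^ I.card *
      (if PV P V (B ⊔ ⨆ j ∈ I, R j) then 1 else 0) = 0 := by
  have e0 : V ≃ Fin n := Fintype.equivFinOfCardEq hV
  set O : Fin m → Finset (EV V) := fun j => ED (R j) with hO
  set A : Finset (EV V) := univ.biUnion O with hA
  set B0 : Finset (EV V) := ED B with hB0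
  -- disjointness
  have hdisj' : ∀ G H : SimpleGraph V, Disjoint G H → Disjoint (ED G) (ED H) := by
    intro G H hGH
    rw [Finset.disjoint_left]
    rintro ⟨e, he⟩ h1 h2
    rw [mem_ED] at h1 h2
    revert he h1 h2
    refine Sym2.ind (fun u v => ?_) e
    intro _ h1 h2
    have := hGH.le_bot (show (G ⊓ H).Adj u v from ⟨h1, h2⟩)
    exact this
  have hOd : ∀ i j, i ≠ j → Disjoint (O i) (O j) := fun i j hij => hdisj' _ _ (hd i j hij)
  have hAB : Disjoint A B0 := by
    rw [hA, Finset.disjoint_biUnion_left]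
    intro j _
    exact (hdisj' _ _ (hd0 j)).symm
  have hcard : A.card = ∑ j, Nat.card (R j).edgeSet := by
    rw [hA, Finset.card_biUnion (fun i _ j _ hij => hOd i j hij)]
    exact Finset.sum_congr rfl fun j _ => card_ED (R j)
  -- decision tree
  have hdec : Dec q (fun S : Finset (EV V) => P (toG (S.map (ee e0).toEmbedding))) := by
    refine hP.dec.comap (fun S : Finset (EV V) => S.map (ee e0).toEmbedding) ?_
    intro e
    refine Or.inr (Or.inr (Or.inl ⟨(ee e0).symm e, fun S => ?_⟩))
    rw [mem_map_equiv]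
  set D : Finset (EV V) → Prop := fun S => ¬ PV P V (toG (B0 ∪ S)) with hD
  have hNE : NE A D := by
    refine NE_congr (hdec.ne A B0 hAB (by rw [hcard]; exact hq)) D ?_
    intro S _
    rw [hD]
    simp only
    rw [toG_map, PV_iff hP e0]
  -- invariance
  have hOa : ∀ j i, (O j).map (ep (a i)).toEmbedding = O j := fun j i => ED_map _ _ (hRa j i)
  have hOc : ∀ j, (O j).map (ep c).toEmbedding = O j := fun j => ED_map _ _ (hRc j)
  have hBa' : ∀ i, B0.map (ep (a i)).toEmbedding = B0 := fun i => ED_map _ _ (hBa i)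
  have hBc' : B0.map (ep c).toEmbedding = B0 := ED_map _ _ hBc
  have hAg : ∀ g : Equiv.Perm V, (∀ j, (O j).map (ep g).toEmbedding = O j) →
      A.map (ep g).toEmbedding = A := by
    intro g hg
    rw [hA, Finset.map_eq_image, Finset.biUnion_image]
    refine Finset.biUnion_congr rfl fun j _ => ?_
    rw [← Finset.map_eq_image, hg j]
  have hDg : ∀ (g : Equiv.Perm V), B0.map (ep g).toEmbedding = B0 → ∀ S, D S →
      D (S.map (ep g).toEmbedding) := by
    intro g hg S hS
    rw [hD] at hS ⊢
    simp only at hS ⊢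
    intro h
    apply hS
    have h2 : B0 ∪ S.map (ep g).toEmbedding = (B0 ∪ S).map (ep g).toEmbedding := by
      rw [Finset.map_union, hg]
    rw [h2, map_ep_toG] at h
    exact PV_perm hP g _ h
  have key := orbit_sum (E := EV V) A D (by
      intro S T hST _ hT
      rw [hD] at hT ⊢
      simp only at hT ⊢
      exact fun h => hT (PV_mono hP (toG_mono (Finset.union_subset_union_right hST)) h))
    hNE p (fun i => ep (a i)) (ep c)
    (by
      intro i j
      change ep (a i) * ep (a j) = ep (a j) * ep (a i)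
      rw [← ep_mul, ← ep_mul, hcomm])
    (by
      intro i
      change ep (a i) ^ p = 1
      rw [← ep_pow, hap, ep_one])
    (fun i => hAg (a i) fun j => hOa j i) (hAg c hOc)
    (fun i S _ hS => hDg (a i) (hBa' i) S hS) (fun S _ hS => hDg c hBc' S hS)
    (by
      intro S hS i
      change (S.map (ep c).toEmbedding).map (ep (a i)).toEmbedding = S.map (ep c).toEmbedding
      have h1 : a i * c = c * (c⁻¹ * a i * c) := by group
      rw [mp_mul, h1, ← mp_mul]
      rw [inv_closure S (Set.range a) ?_ _ (hca i)]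
      rintro g ⟨i', rfl⟩
      exact hS i')
    O (by
      intro j
      obtain ⟨u, v, huv⟩ := hne j
      refine ⟨⟨s(u, v), ?_⟩, ?_⟩
      · rw [Sym2.mk_isDiag_iff]; exact huv.ne
      · rw [hO]
        simp only
        rw [mem_ED]
        exact huv)
    hOd rfl
    (by
      intro S hSA hSa hSc
      refine ⟨univ.filter fun j => (S ∩ O j).Nonempty, ?_⟩
      have hinvS : ∀ g ∈ Subgroup.closure (insert c (Set.range a)),
          S.map (ep g).toEmbedding = S := by
        refine fun g hg => inv_closure S _ ?_ g hg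
        rintro g' (rfl | ⟨i, rfl⟩)
        · exact hSc
        · exact hSa i
      ext e
      rw [mem_biUnion]
      constructor
      · intro he
        have h1 := hSA he
        rw [hA, mem_biUnion] at h1
        obtain ⟨j, -, hj⟩ := h1
        exact ⟨j, by rw [mem_filter]; exact ⟨mem_univ _, ⟨e, mem_inter.2 ⟨he, hj⟩⟩⟩, hj⟩
      · rintro ⟨j, hj, hej⟩
        rw [mem_filter] at hj
        obtain ⟨-, e', he'⟩ := hj
        rw [mem_inter] at he'
        obtain ⟨he'S, he'j⟩ := he'
        rw [hO] at hej he'j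
        simp only at hej he'j
        rw [mem_ED] at hej he'j
        obtain ⟨e, hed⟩ := e
        obtain ⟨e', hed'⟩ := e'
        simp only at hej he'j
        induction e using Sym2.ind with
        | _ u' v' =>
        induction e' using Sym2.ind with
        | _ u v =>
        obtain ⟨g, hg, hg'⟩ := htr j u v u' v' he'j hej
        have h2 : ep g ⟨s(u, v), hed'⟩ = ⟨s(u', v'), hed⟩ := by
          apply Subtype.ext
          rw [ep_val]
          change s(g u, g v) = s(u', v')
          rcases hg' with ⟨h3, h4⟩ | ⟨h3, h4⟩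
          · rw [h3, h4]
          · rw [h3, h4, Sym2.eq_swap]
        rw [← h2, ← hinvS g hg]
        exact mem_map_of_mem _ he'S)
    hOa hOc
  -- final computation
  have hm : (univ : Finset (Fin m)) ≠ ∅ := by
    intro h
    rw [h, Finset.sum_empty] at hq
    exact absurd hq (Nat.not_lt_zero _)
  have hsum : ∑ I : Finset (Fin m), (-1 : ℤ) ^ I.card = 0 := by
    have := Finset.sum_powerset_neg_one_pow_card (x := (univ : Finset (Fin m)))
    rw [if_neg hm, Finset.powerset_univ] at this
    exact this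
  have hval : ∀ I : Finset (Fin m), D (I.biUnion O) ↔ ¬ PV P V (B ⊔ ⨆ j ∈ I, R j) := by
    intro I
    rw [hD]
    simp only
    rw [toG_union, hB0, toG_ED, hO, toG_biUnion]
  have hfin : ∑ I : Finset (Fin m), (-1 : ℤ) ^ I.card *
      (if PV P V (B ⊔ ⨆ j ∈ I, R j) then 1 else 0) =
      ∑ I : Finset (Fin m), (-1 : ℤ) ^ I.card -
        ∑ I : Finset (Fin m), (-1 : ℤ) ^ I.card * (if D (I.biUnion O) then 1 else 0) := by
    rw [← Finset.sum_sub_distrib]
    refine Finset.sum_congr rfl fun I _ => ?_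
    by_cases h : PV P V (B ⊔ ⨆ j ∈ I, R j)
    · rw [if_pos h, if_neg (fun h' => (hval I).1 h' h)]
      ring
    · rw [if_neg h, if_pos ((hval I).2 h)]
      ring
  rw [hfin, hsum, key, sub_zero]

end Pool.Agent.H119R2.Kp
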